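import Mathlib
import Pool.Agent.Helper42_OD.Fam
import Pool.Agent.Helper54_OD.Meas
import Pool.Agent.Helper54_OD.Low
import Pool.Agent.Helper94_OD.Low2

set_option autoImplicit false

open MeasureTheory ProbabilityTheory

namespace Pool.Agent.Results.MP_ee7213_pr.LinearOrderSharp

/-- Adjacency in the lattice `ℤ^d`: `l1` distance one. -/
def Adjacent {d : ℕ} (u v : Fin d → ℤ) : Prop := (∑ i, |u i - v i|) = 1

/-- `μ` is the law (on the space of all maps from `ℤ^d` to `q` colours) of a stationary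
1-dependent `q`-colouring of `ℤ^d`. -/
structure IsLaw (d q : ℕ) (μ : Measure ((Fin d → ℤ) → Fin q)) : Prop where
  /-- it is a probability measure -/
  prob : IsProbabilityMeasure μ
  /-- almost surely, any two adjacent sites have different colours -/
  proper : ∀ᵐ x ∂μ, ∀ u v : Fin d → ℤ, Adjacent u v → x u ≠ x v
  /-- invariance under all translations -/
  stat : ∀ a : Fin d → ℤ, μ.map (fun x v => x (v + a)) = μ
  /-- the colours on two sets at distance larger than one are independent -/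
  indep : ∀ A B : Set (Fin d → ℤ), (∀ u ∈ A, ∀ v ∈ B, u ≠ v ∧ ¬ Adjacent u v) →
    IndepFun (fun (x : (Fin d → ℤ) → Fin q) (v : A) => x v)
      (fun (x : (Fin d → ℤ) → Fin q) (v : B) => x v) μ

/-- There is a stationary 1-dependent `q`-colouring of `ℤ^d`. -/
def Colourable (d q : ℕ) : Prop := ∃ μ : Measure ((Fin d → ℤ) → Fin q), IsLaw d q μ

/-- The number `q_d`: the least `q` for which a stationary 1-dependent `q`-colouring of `ℤ^d`
exists. -/
noncomputable def qmin (d : ℕ) : ℕ := sInf {q : ℕ | Colourable d q}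

theorem isLaw_iff (d q : ℕ) (μ : Measure ((Fin d → ℤ) → Fin q)) :
    IsLaw d q μ ↔ Pool.Agent.OD.IsOneDep d q μ :=
  ⟨fun h => ⟨h.prob, h.proper, h.stat, h.indep⟩, fun h => ⟨h.prob, h.proper, h.stat, h.indep⟩⟩

/-- For every `d ≥ 1` a stationary 1-dependent `q`-colouring of `ℤ^d` exists for every
`q ≥ 44 d`; the least such number of colours satisfies
`(d + 1)^(d + 1) / d^d ≤ q_d ≤ 44 d` and `q_d ≥ 2 e d - 50 √d`. So `q_d` is of order `d`. -/
theorem result : ∀ d : ℕ, 1 ≤ d →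
    (∀ q : ℕ, 44 * d ≤ q → Colourable d q) ∧ Colourable d (qmin d) ∧
      (d + 1) ^ (d + 1) ≤ qmin d * d ^ d ∧
      2 * Real.exp 1 * d - 50 * Real.sqrt d ≤ qmin d ∧ qmin d ≤ 44 * d := by
  intro d hd
  have h1 : ∀ q : ℕ, 44 * d ≤ q → Colourable d q := by
    intro q hq
    obtain ⟨μ, hμ⟩ := Pool.Agent.OD.H54.meas d q _ (by omega)
      (Pool.Agent.OD.isFam hq (by omega))
    exact ⟨μ, (isLaw_iff d q μ).2 hμ⟩
  have hne : {q : ℕ | Colourable d q}.Nonempty := ⟨44 * d, h1 _ le_rfl⟩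
  have h2 : Colourable d (qmin d) := Nat.sInf_mem hne
  refine ⟨h1, h2, ?_, ?_, Nat.sInf_le (h1 _ le_rfl)⟩
  · obtain ⟨μ, hμ⟩ := h2
    exact Pool.Agent.OD.H54L.low d _ μ hd ((isLaw_iff _ _ μ).1 hμ)
  · obtain ⟨μ, hμ⟩ := h2
    exact Pool.Agent.OD.H94.low2 d _ μ hd ((isLaw_iff _ _ μ).1 hμ)

end Pool.Agent.Results.MP_ee7213_pr.LinearOrderSharp
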