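import Mathlib
import Pool.Agent.Helper52_OD.Fin
import Pool.Agent.Helper99_OD.Prod
import Pool.Agent.Helper45_OD.Fam1
import Pool.Agent.Helper54_OD.Low

set_option autoImplicit false

open MeasureTheory ProbabilityTheory

namespace Pool.Agent.Results.MP_ee7213_pr.RowRigidity

/-- Adjacency in the lattice `ℤ^d`: `l1` distance one. -/
def Adjacent {d : ℕ} (u v : Fin d → ℤ) : Prop := (∑ i, |u i - v i|) = 1

/-- `μ` is the law (on the space of all maps from `ℤ^d` to `q` colours) of a stationary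
1-dependent `q`-colouring of `ℤ^d`. -/
structure IsLaw (d q : ℕ) (μ : Measure ((Fin d → ℤ) → Fin q)) : Prop where
  /-- it is a probability measure -/
  prob : IsProbabilityMeasure μ
  /-- almost surely, any two adjacent sites have different colours -/
  proper : ∀ᵐ x ∂μ, ∀ u v : Fin d → ℤ, Adjacent u v → x u ≠ x v
  /-- invariance under all translations -/
  stat : ∀ a : Fin d → ℤ, μ.map (fun x v => x (v + a)) = μ
  /-- the colours on two sets at distance larger than one are independent -/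
  indep : ∀ A B : Set (Fin d → ℤ), (∀ u ∈ A, ∀ v ∈ B, u ≠ v ∧ ¬ Adjacent u v) →
    IndepFun (fun (x : (Fin d → ℤ) → Fin q) (v : A) => x v)
      (fun (x : (Fin d → ℤ) → Fin q) (v : B) => x v) μ

/-- There is a stationary 1-dependent `q`-colouring of `ℤ^d`. -/
def Colourable (d q : ℕ) : Prop := ∃ μ : Measure ((Fin d → ℤ) → Fin q), IsLaw d q μ

/-- The number `q_d`: the least `q` for which a stationary 1-dependent `q`-colouring of `ℤ^d`
exists. -/
noncomputable def qmin (d : ℕ) : ℕ := sInf {q : ℕ | Colourable d q}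

/-- Almost surely the colour set `C` contains no two colours of sites that are neighbours in
direction `i`. -/
def Separated {d q : ℕ} (μ : Measure ((Fin d → ℤ) → Fin q)) (i : Fin d) (C : Finset (Fin q)) :
    Prop :=
  ∀ᵐ x ∂μ, ∀ u : Fin d → ℤ, x u ∈ C → x (u + Pi.single i 1) ∉ C

/-- Almost surely the coordinate `r` of the colour (four values) properly colours all lines of
direction `i`. -/
def ProperAlong {d q : ℕ} (μ : Measure ((Fin d → ℤ) → Fin q)) (i : Fin d) (r : Fin q → Fin 4) :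
    Prop :=
  ∀ᵐ x ∂μ, ∀ u : Fin d → ℤ, r (x u) ≠ r (x (u + Pi.single i 1))

/-- `E` is an event that depends only on the colours of the sites `u ≠ v` of the hyperplane
`u i = v i`. -/
def OffSite {d q : ℕ} (i : Fin d) (v : Fin d → ℤ) (E : Set ((Fin d → ℤ) → Fin q)) : Prop :=
  MeasurableSet[MeasurableSpace.comap
    (fun (x : (Fin d → ℤ) → Fin q) (u : {u : Fin d → ℤ | u i = v i ∧ u ≠ v}) => x u)
    inferInstance] E

theorem isLaw_iff (d q : ℕ) (μ : Measure ((Fin d → ℤ) → Fin q)) :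
    IsLaw d q μ ↔ Pool.Agent.OD.IsOneDep d q μ :=
  ⟨fun h => ⟨h.prob, h.proper, h.stat, h.indep⟩, fun h => ⟨h.prob, h.proper, h.stat, h.indep⟩⟩

theorem colourable_pow (d : ℕ) : Colourable d (4 ^ d) := by
  obtain ⟨μ, _, hμ, _⟩ := Pool.Agent.OD.H52.I.all_up' Pool.Agent.OD.H99.prodStmt
    ⟨_, Pool.Agent.OD.H45.fam⟩ d
  exact ⟨μ, (isLaw_iff _ _ _).2 hμ⟩

theorem colourable_qmin (d : ℕ) : Colourable d (qmin d) :=
  Nat.sInf_mem (s := {q : ℕ | Colourable d q}) ⟨_, colourable_pow d⟩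

theorem qmin_le {d q : ℕ} {μ : Measure ((Fin d → ℤ) → Fin q)} (h : Pool.Agent.OD.IsOneDep d q μ) :
    qmin d ≤ q := Nat.sInf_le ⟨μ, (isLaw_iff _ _ _).2 h⟩

theorem part_one (d : ℕ) (i : Fin (d + 1)) : IsLeast {q : ℕ | ∃ (μ : Measure
    ((Fin (d + 1) → ℤ) → Fin q)) (r : Fin q → Fin 4), IsLaw (d + 1) q μ ∧ ProperAlong μ i r}
    (4 * qmin d) := by
  constructor
  · obtain ⟨ν, hν⟩ := colourable_qmin d
    obtain ⟨μ, r, hμ, hr⟩ := Pool.Agent.OD.H52.I.one_up i Pool.Agent.OD.H99.prodStmt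
      ⟨_, Pool.Agent.OD.H45.fam⟩ (qmin d) ⟨ν, (isLaw_iff _ _ _).1 hν⟩
    exact ⟨μ, r, (isLaw_iff _ _ _).2 hμ, hr⟩
  · rintro q ⟨μ, r, hμ, hr⟩
    exact Pool.Agent.OD.H52.I.one_low i ((isLaw_iff _ _ _).1 hμ) r hr (qmin d)
      fun k ν hν => qmin_le hν

theorem part_all (d : ℕ) : IsLeast {q : ℕ | ∃ (μ : Measure ((Fin d → ℤ) → Fin q))
    (r : Fin d → Fin q → Fin 4), IsLaw d q μ ∧ ∀ i, ProperAlong μ i (r i)} (4 ^ d) := by
  constructor
  · obtain ⟨μ, r, hμ, hr⟩ := Pool.Agent.OD.H52.I.all_up' Pool.Agent.OD.H99.prodStmt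
      ⟨_, Pool.Agent.OD.H45.fam⟩ d
    exact ⟨μ, r, (isLaw_iff _ _ _).2 hμ, hr⟩
  · rintro q ⟨μ, r, hμ, hr⟩
    exact Pool.Agent.OD.H52.all_low d q μ r ((isLaw_iff _ _ _).1 hμ) hr

theorem qmin_zero : qmin 0 = 1 := by
  refine le_antisymm (Nat.sInf_le (colourable_pow 0)) ?_
  obtain ⟨μ, hμ⟩ := colourable_qmin 0
  exact Pool.Agent.OD.H52.all_low 0 _ μ (fun i => i.elim0) ((isLaw_iff _ _ _).1 hμ)
    fun i => i.elim0

theorem qmin_one : qmin 1 = 4 := by
  refine le_antisymm (Nat.sInf_le (colourable_pow 1)) ?_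
  obtain ⟨μ, hμ⟩ := colourable_qmin 1
  have h := Pool.Agent.OD.H54L.low 1 _ μ le_rfl ((isLaw_iff _ _ _).1 hμ)
  simpa using h

/-- **Rigidity of critical colour classes.** -/
theorem result :
    -- (1) a set of colours which is separated in one direction: density at most `1/4`; in the
    -- case of equality it has at least `q_d` colours and it is independent of the hyperplane
    (∀ (d q : ℕ) (μ : Measure ((Fin (d + 1) → ℤ) → Fin q)) (i : Fin (d + 1)) (C : Finset (Fin q)),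
      IsLaw (d + 1) q μ → Separated μ i C →
      μ.real {x | x 0 ∈ C} ≤ 1 / 4 ∧
      (μ.real {x | x 0 ∈ C} = 1 / 4 →
        qmin d ≤ C.card ∧ Colourable d C.card ∧
        ∀ (v : Fin (d + 1) → ℤ) (E : Set ((Fin (d + 1) → ℤ) → Fin q)), OffSite i v E →
          μ (E ∩ {x | x v ∈ C}) = μ E * μ {x | x v ∈ C})) ∧
    -- (2) colourings of `ℤ^(d+1)` with a 4-valued coordinate proper along one direction
    (∀ (d : ℕ) (i : Fin (d + 1)), IsLeast {q : ℕ | ∃ (μ : Measure ((Fin (d + 1) → ℤ) → Fin q))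
      (r : Fin q → Fin 4), IsLaw (d + 1) q μ ∧ ProperAlong μ i r} (4 * qmin d)) ∧
    -- (3) the plane
    (∀ i : Fin 2, IsLeast {q : ℕ | ∃ (μ : Measure ((Fin 2 → ℤ) → Fin q)) (r : Fin q → Fin 4),
      IsLaw 2 q μ ∧ ProperAlong μ i r} 16) ∧
    -- (4) a 4-valued coordinate for every direction
    (∀ d : ℕ, IsLeast {q : ℕ | ∃ (μ : Measure ((Fin d → ℤ) → Fin q))
      (r : Fin d → Fin q → Fin 4), IsLaw d q μ ∧ ∀ i, ProperAlong μ i (r i)} (4 ^ d)) := by
  refine ⟨?_, part_one, ?_, part_all⟩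
  · intro d q μ i C hμ hC
    obtain ⟨h1, h2⟩ := Pool.Agent.OD.H52.I.cls i ((isLaw_iff _ _ _).1 hμ) C hC
    refine ⟨h1, fun h => ?_⟩
    obtain ⟨⟨ν, hν⟩, h3⟩ := h2 h
    exact ⟨qmin_le hν, ⟨ν, (isLaw_iff _ _ _).2 hν⟩, h3⟩
  · intro i
    have h := part_one 1 i
    rw [qmin_one] at h
    exact h

end Pool.Agent.Results.MP_ee7213_pr.RowRigidity
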